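import Pool.Agent.K3h62.SF.AlgCore
import Pool.Agent.K3h8.SF.Stm2

/-!
# Brick ALG
-/

set_option autoImplicit false

namespace Pool.Agent.K3h62.SF

universe v

theorem t_ALG : Pool.Agent.K3h8.SF.ALG.{v} := fun A _ _ l p h1 h2 h3 h4 a ha =>
  alg A l p h1 h2 h3 h4 a ha

end Pool.Agent.K3h62.SF
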