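import Mathlib

/-!
# Nilpotence of commuting letters: pure algebra
-/

set_option autoImplicit false

namespace Pool.Agent.K3h62.SF

open Polynomial

universe v

lemma core {B : Type v} [CommRing B] [Algebra ℚ B] (I : Ideal B) (l : List B)
    (h : ∀ x : ℚ, ∃ N : ℕ, ((l.map (fun a => 1 + x • a)).prod - 1) ^ N ∈ I) (a : B) (ha : a ∈ l) :
    ∃ L : ℕ, a ^ L ∈ I := by
  rw [← Ideal.mem_radical_iff, Ideal.radical_eq_sInf, Ideal.mem_sInf]
  rintro J ⟨hIJ, hJ⟩
  have hD : IsDomain (B ⧸ J) := Ideal.Quotient.isDomain J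
  let F : (B ⧸ J)[X] := (l.map (fun b => 1 + C (Ideal.Quotient.mk J b) * X)).prod
  have hF : ∀ x : ℚ, F.eval (algebraMap ℚ (B ⧸ J) x) = 1 := by
    intro x
    obtain ⟨N, hN⟩ := h x
    have h1 : (l.map (fun a => 1 + x • a)).prod - 1 ∈ J := hJ.mem_of_pow_mem N (hIJ hN)
    have h2 : Ideal.Quotient.mk J ((l.map (fun a => 1 + x • a)).prod) = 1 := by
      rw [← map_one (Ideal.Quotient.mk J)]
      exact (Ideal.Quotient.mk_eq_mk_iff_sub_mem _ _).2 h1
    rw [← h2]
    change (Polynomial.evalRingHom (algebraMap ℚ (B ⧸ J) x)) F = _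
    rw [map_list_prod, map_list_prod, List.map_map, List.map_map]
    congr 1
    apply List.map_congr_left
    intro b _
    simp only [Function.comp_apply, coe_evalRingHom, eval_add, eval_one, eval_mul, eval_C, eval_X,
      map_add, map_one]
    congr 1
    rw [Algebra.smul_def, map_mul, mul_comm]
    rfl
  have hF1 : F = 1 := by
    apply Polynomial.eq_of_infinite_eval_eq
    have hinj : Function.Injective (algebraMap ℚ (B ⧸ J)) := (algebraMap ℚ (B ⧸ J)).injective
    refine (Set.infinite_range_of_injective hinj).mono ?_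
    rintro _ ⟨x, rfl⟩
    change F.eval (algebraMap ℚ (B ⧸ J) x) = (1 : (B ⧸ J)[X]).eval (algebraMap ℚ (B ⧸ J) x)
    rw [hF, eval_one]
  have hu : IsUnit (1 + C (Ideal.Quotient.mk J a) * X : (B ⧸ J)[X]) := by
    have h5 : (1 + C (Ideal.Quotient.mk J a) * X : (B ⧸ J)[X]) ∣ F :=
      List.dvd_prod (List.mem_map.2 ⟨a, ha, rfl⟩)
    rw [hF1] at h5
    exact isUnit_of_dvd_one h5
  obtain ⟨r, _, hr⟩ := Polynomial.isUnit_iff.1 hu
  have h3 := congrArg (fun f : (B ⧸ J)[X] => f.coeff 1) hr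
  simp only [coeff_C_succ, coeff_add, coeff_C_mul, coeff_X_one, mul_one] at h3
  have h4 : (1 : (B ⧸ J)[X]).coeff 1 = 0 := by
    rw [coeff_one]; simp
  rw [h4, zero_add] at h3
  exact Ideal.Quotient.eq_zero_iff_mem.1 h3.symm

set_option linter.deprecated false in
theorem alg (A : Type v) [Ring A] [Algebra ℚ A] (l : List A) (p : A)
    (hcomm : ∀ x ∈ l, ∀ y ∈ l, x * y = y * x) (hp : p * p = p)
    (hP : ∀ x : ℚ, Commute ((l.map (fun a => 1 + x • a)).prod) p)
    (hnil : ∀ x : ℚ, IsNilpotent (((l.map (fun a => 1 + x • a)).prod - 1) * p))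
    (a : A) (ha : a ∈ l) : ∃ L : ℕ, a ^ L * p = 0 := by
  let B := Algebra.adjoin ℚ {x | x ∈ l}
  let _ : CommRing B := Algebra.adjoinCommRingOfComm ℚ (fun x hx y hy => hcomm x hx y hy)
  let φ : B →ₐ[ℚ] A := B.val
  let I : Ideal B :=
    { carrier := {b | φ b * p = 0}
      add_mem' := by
        intro x y hx hy
        change φ (x + y) * p = 0
        have hx' : φ x * p = 0 := hx
        have hy' : φ y * p = 0 := hy
        rw [map_add, add_mul, hx', hy', add_zero]
      zero_mem' := by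
        change φ 0 * p = 0
        rw [map_zero, zero_mul]
      smul_mem' := by
        intro c x hx
        have hx' : φ x * p = 0 := hx
        change φ (c * x) * p = 0
        rw [map_mul, mul_assoc, hx', mul_zero] }
  obtain ⟨l', hl', hal'⟩ : ∃ l' : List B, l'.map φ = l ∧
      (⟨a, Algebra.subset_adjoin ha⟩ : B) ∈ l' := by
    refine ⟨l.attach.map (fun x => (⟨x.1, Algebra.subset_adjoin x.2⟩ : B)), ?_, ?_⟩
    · rw [List.map_map]
      exact List.attach_map_subtype_val l
    · rw [List.mem_map]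
      exact ⟨⟨a, ha⟩, List.mem_attach _ _, rfl⟩
  have hprod : ∀ x : ℚ, φ ((l'.map (fun a => 1 + x • a)).prod) =
      (l.map (fun a => 1 + x • a)).prod := by
    intro x
    conv_rhs => rw [← hl', List.map_map]
    rw [map_list_prod, List.map_map]
    congr 1
  obtain ⟨L, hL⟩ := core I l' (by
    intro x
    obtain ⟨N, hN⟩ := hnil x
    refine ⟨N + 1, ?_⟩
    change φ (((l'.map (fun a => 1 + x • a)).prod - 1) ^ (N + 1)) * p = 0
    rw [map_pow, map_sub, map_one, hprod]
    have hc : Commute ((l.map (fun a => 1 + x • a)).prod - 1) p :=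
      (hP x).sub_left (Commute.one_left p)
    have h1 : (((l.map (fun a => 1 + x • a)).prod - 1) * p) ^ (N + 1) = 0 := by
      rw [pow_succ, hN, zero_mul]
    rw [hc.mul_pow] at h1
    have h2 : p ^ (N + 1) = p := by
      have : IsIdempotentElem p := hp
      exact this.pow_succ_eq N
    rwa [h2] at h1) ⟨a, Algebra.subset_adjoin ha⟩ hal'
  refine ⟨L, ?_⟩
  have h3 : φ ((⟨a, Algebra.subset_adjoin ha⟩ : B) ^ L) * p = 0 := hL
  rwa [map_pow] at h3

end Pool.Agent.K3h62.SF
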